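import Mathlib
import Pool.Agent.Lib.MP_524519_ag.DU5.TE.Iface

/-! DU5, chapter TE, module ORD: the order of `G` at a point of `G_0 = G_1 + lam G_2 = 0`. -/

set_option autoImplicit false

namespace Pool.Agent.DU5.TE

open MvPowerSeries

/-- ORD: the order of `G` at a point of `G_0 = G_1 + lam G_2 = 0`. -/
theorem ord (chn : TR.ChnStatement) : OrdStatement := by
  intro F _ n hn hnF lam x G hx hW _ h0 h12 hβ
  have h := (chn 3 F F (0 : Derivation F F F) x G hx).1
  rw [Fin.sum_univ_three, h0, zero_mul, zero_add] at h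
  have hx2 : x 2 = PowerSeries.C lam * x 1 + PowerSeries.X ^ n := by rw [← hW]; ring
  have hC : ev x (MvPowerSeries.C lam : O F 3) = PowerSeries.C lam := by
    unfold ev
    rw [← coe_substAlgHom (hs hx)]
    exact (substAlgHom (hs hx)).commutes lam
  rw [ev_add hx, ev_mul hx, hC] at h12
  have hd : PowerSeries.derivative F (x 2) =
      PowerSeries.C lam * PowerSeries.derivative F (x 1) +
        PowerSeries.C (n : F) * PowerSeries.X ^ (n - 1) := by
    rw [hx2, map_add, Derivation.leibniz, Derivation.leibniz_pow, PowerSeries.derivative_C,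
      PowerSeries.derivative_X]
    simp [smul_eq_mul]
  have h1 : ev x (pderiv F 1 G) = -(PowerSeries.C lam * ev x (pderiv F 2 G)) := by
    linear_combination h12
  have h2 : PowerSeries.derivative F (ev x G) =
      PowerSeries.C (n : F) * (PowerSeries.X ^ (n - 1) * ev x (pderiv F 2 G)) := by
    rw [h, hd, h1]; ring
  obtain ⟨b, hb⟩ := ENat.ne_top_iff_exists.1 (fun e => hβ (PowerSeries.order_eq_top.1 e))
  have hcb : PowerSeries.coeff b (ev x (pderiv F 2 G)) ≠ 0 := by
    have := PowerSeries.coeff_order hβ
    rwa [← hb, ENat.toNat_natCast] at this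
  have h3 := congrArg (PowerSeries.coeff (b + (n - 1))) h2
  rw [PowerSeries.coeff_derivative, PowerSeries.coeff_C_mul, PowerSeries.coeff_X_pow_mul] at h3
  have h4 : PowerSeries.coeff (b + n) (ev x G) ≠ 0 := by
    intro h5
    have e : b + (n - 1) + 1 = b + n := by omega
    rw [e, h5, zero_mul] at h3
    exact mul_ne_zero hnF hcb h3.symm
  have h6 := PowerSeries.order_le _ h4
  rw [← hb]
  exact_mod_cast h6

end Pool.Agent.DU5.TE
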